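import Pool.Agent.H540R3.FL

set_option autoImplicit false

/-!
# A diagram group without Thompson's group `F` which is not linear

The group is the diagram group over `⟨x, p, y | x = xp, x = xpp, y = py, y = ppy⟩` at `xy`. It
contains elements `u, l, t` such that `u` commutes with `t⁻ⁿ l tⁿ` for all `n ≥ 0` but not with
`t l t⁻¹`; this is impossible in a finite-dimensional algebra over a field.
-/

namespace Pool.Agent.Results.MP_f02a84_al.NotLinear

open Pool.Agent.H599R3 H540FL

/-- There is a diagram group which has no subgroup isomorphic to Thompson's group `F` and which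
does not embed into `GL_n(K)` for any `n` and any field `K`. -/
theorem result.{u} : ∃ (A : Type) (R : Set (List A × List A)) (w : List A),
    (∀ r ∈ R, r.1 ≠ [] ∧ r.2 ≠ []) ∧ w ≠ [] ∧
    (∀ φ : ThompsonF →* D R w, ¬ Function.Injective φ) ∧
    ∀ (n : ℕ) (K : Type u) [Field K] (φ : D R w →* Matrix.GeneralLinearGroup (Fin n) K),
      ¬ Function.Injective φ := by
  refine ⟨Al, R0, W 0, ?_, List.cons_ne_nil _ _, no_F, fun n K _ φ => not_linear φ⟩
  rintro r ⟨c, rfl | rfl⟩
  · exact ⟨List.cons_ne_nil _ _, List.cons_ne_nil _ _⟩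
  · exact ⟨List.cons_ne_nil _ _, by simp⟩

end Pool.Agent.Results.MP_f02a84_al.NotLinear
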