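import Pool.Agent.H540R3.FL

set_option autoImplicit false

/-!
# A diagram group without Thompson's group `F` which is not residually finite

The group is the diagram group over `⟨x, p, y | x = xp, x = xpp, y = py, y = ppy⟩` at `xy`.
-/

namespace Pool.Agent.Results.MP_f02a84_al.NotResFin

open Pool.Agent.H599R3 H540FL

/-- There is a diagram group which has no subgroup isomorphic to Thompson's group `F` and which
is not residually finite. -/
theorem result : ∃ (A : Type) (R : Set (List A × List A)) (w : List A),
    (∀ r ∈ R, r.1 ≠ [] ∧ r.2 ≠ []) ∧ w ≠ [] ∧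
    (∀ φ : ThompsonF →* D R w, ¬ Function.Injective φ) ∧
    ¬ Group.ResiduallyFinite (D R w) := by
  refine ⟨Al, R0, W 0, ?_, List.cons_ne_nil _ _, no_F, not_rf⟩
  rintro r ⟨c, rfl | rfl⟩
  · exact ⟨List.cons_ne_nil _ _, List.cons_ne_nil _ _⟩
  · exact ⟨List.cons_ne_nil _ _, by simp⟩

end Pool.Agent.Results.MP_f02a84_al.NotResFin
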